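import Pool.Agent.K3h69.KB.Stm

/-!
# Project KB of helper69, brick UNI: unimodular columns over the Eisenstein integers
-/

set_option autoImplicit false

namespace Pool.Agent.K3h45.KB

open Matrix Pool.Agent.R895 Pool.Agent.K3h69.KB

theorem sum_nat {n : ℕ} {w : Fin n → ℂ} (hw : IsLat w) :
    ∃ N : ℕ, ∑ i, Complex.normSq (w i) = N := by
  choose N hN using fun i => (hw i).normSq
  exact ⟨∑ i, N i, by rw [Nat.cast_sum]; exact Finset.sum_congr rfl fun i _ => hN i⟩

theorem eis_tv {n : ℕ} (i j : Fin n) {e : ℂ} (he : IsEis e) (a b : Fin n) :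
    IsEis (transvection i j e a b) := by
  rw [transvection, Matrix.add_apply, Matrix.one_apply, Matrix.single_apply]
  refine IsEis.add ?_ ?_
  · split_ifs
    · exact IsEis.one
    · exact IsEis.zero
  · split_ifs
    · exact he
    · exact IsEis.zero

theorem gl_tv {n : ℕ} {i j : Fin n} (hij : i ≠ j) {e : ℂ} (he : IsEis e) :
    IsGL (transvection i j e) :=
  ⟨eis_tv i j he, transvection i j (-e), eis_tv i j he.neg, by
    rw [transvection_mul_transvection_same _ _ hij, add_neg_cancel, transvection_zero], by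
    rw [transvection_mul_transvection_same _ _ hij, neg_add_cancel, transvection_zero]⟩

theorem tv_mulVec {n : ℕ} (i j : Fin n) (e : ℂ) (w : Fin n → ℂ) :
    transvection i j e *ᵥ w = fun k => w k + if k = i then e * w j else 0 := by
  ext k
  rw [transvection, add_mulVec, one_mulVec, Pi.add_apply]
  congr 1
  simp only [mulVec, dotProduct, Matrix.single_apply, ite_and]
  by_cases h : k = i
  · subst h
    simp
  · rw [if_neg h]
    refine Finset.sum_eq_zero fun x _ => ?_
    rw [if_neg (fun h' => h h'.symm), zero_mul]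

theorem exists_swap {n : ℕ} (k : Fin (n + 1)) : ∃ P : Matrix (Fin (n + 1)) (Fin (n + 1)) ℂ,
    IsGL P ∧ P *ᵥ (Pi.single 0 1) = Pi.single k 1 := by
  set P : Matrix (Fin (n + 1)) (Fin (n + 1)) ℂ :=
    (Equiv.swap (0 : Fin (n + 1)) k).toPEquiv.toMatrix with hP
  have hPe : ∀ i j, IsEis (P i j) := by
    intro i j
    rw [hP, PEquiv.toMatrix_apply]
    split_ifs
    · exact IsEis.one
    · exact IsEis.zero
  have hPP : P * P = 1 := by
    rw [hP, ← PEquiv.toMatrix_trans]
    have : (Equiv.swap (0 : Fin (n + 1)) k).toPEquiv.trans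
        (Equiv.swap (0 : Fin (n + 1)) k).toPEquiv = PEquiv.refl _ := by
      rw [← Equiv.toPEquiv_trans]
      have : (Equiv.swap (0 : Fin (n + 1)) k).trans (Equiv.swap 0 k) =
          Equiv.refl _ := by
        ext i
        simp
      rw [this]
      exact Equiv.toPEquiv_refl
    rw [this, PEquiv.toMatrix_refl]
  refine ⟨P, ⟨hPe, P, hPe, hPP, hPP⟩, ?_⟩
  ext i
  have hiff : (0 : Fin (n + 1)) = Equiv.swap (0 : Fin (n + 1)) k i ↔ i = k := by
    constructor
    · intro h
      have := congrArg (Equiv.swap (0 : Fin (n + 1)) k) h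
      rw [Equiv.swap_apply_left, Equiv.swap_apply_self] at this
      exact this.symm
    · rintro rfl
      rw [Equiv.swap_apply_right]
  rw [mulVec_single_one, col_apply, hP, PEquiv.toMatrix_apply, Pi.single_apply]
  simp only [Equiv.toPEquiv_apply, Option.mem_def, Option.some_inj]
  by_cases hi : i = k
  · rw [if_pos (hiff.2 hi).symm, if_pos hi]
  · rw [if_neg (fun h => hi (hiff.1 h.symm)), if_neg hi]

/-- If two coordinates do not vanish, a transvection makes the vector shorter. -/
theorem shorter {n : ℕ} {w : Fin n → ℂ} {i j : Fin n} (hij : i ≠ j)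
    (hi : w i ≠ 0) (hj : w j ≠ 0) (hle : Complex.normSq (w i) ≤ Complex.normSq (w j)) :
    ∃ T : Matrix (Fin n) (Fin n) ℂ, IsGL T ∧ T *ᵥ w ≠ 0 ∧
      ∑ k, Complex.normSq ((T *ᵥ w) k) < ∑ k, Complex.normSq (w k) := by
  obtain ⟨e, he, hne⟩ := exists_near (w j / w i)
  refine ⟨transvection j i (-e), gl_tv hij.symm he.neg, ?_, ?_⟩
  · intro h
    have := congrFun h i
    rw [tv_mulVec] at this
    simp only [if_neg hij, add_zero, Pi.zero_apply] at this
    exact hi this
  · rw [tv_mulVec]
    refine Finset.sum_lt_sum (fun k _ => ?_) ⟨j, Finset.mem_univ _, ?_⟩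
    · by_cases hk : k = j
      · subst hk
        simp only [if_true]
        have h1 : w k + -e * w i = (w k / w i - e) * w i := by field_simp; ring
        rw [h1, Complex.normSq_mul]
        have h2 := Complex.normSq_nonneg (w i)
        nlinarith
      · simp only [if_neg hk, add_zero]
        exact le_refl _
    · simp only [if_true]
      have h1 : w j + -e * w i = (w j / w i - e) * w i := by field_simp; ring
      rw [h1, Complex.normSq_mul]
      have h2 := Complex.normSq_pos.2 hi
      nlinarith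

theorem uni_aux {n : ℕ} : ∀ (N : ℕ) (w : Fin (n + 1) → ℂ), IsLat w → w ≠ 0 →
    ∑ i, Complex.normSq (w i) < N →
    ∃ (g : Matrix (Fin (n + 1)) (Fin (n + 1)) ℂ) (c : ℂ), IsGL g ∧ IsEis c ∧ c ≠ 0 ∧
      w = c • (g *ᵥ (Pi.single 0 1)) := by
  intro N
  induction N with
  | zero =>
    intro w _ _ h
    exact absurd h (not_lt.2 (by
      rw [Nat.cast_zero]
      exact Finset.sum_nonneg fun i _ => Complex.normSq_nonneg _))
  | succ N ih =>
    intro w hw h0 hN
    by_cases h2 : ∃ i j, i ≠ j ∧ w i ≠ 0 ∧ w j ≠ 0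
    · obtain ⟨i, j, hij, hi, hj⟩ := h2
      have key : ∃ T : Matrix (Fin (n + 1)) (Fin (n + 1)) ℂ, IsGL T ∧ T *ᵥ w ≠ 0 ∧
          ∑ k, Complex.normSq ((T *ᵥ w) k) < ∑ k, Complex.normSq (w k) := by
        rcases le_total (Complex.normSq (w i)) (Complex.normSq (w j)) with h | h
        · exact shorter hij hi hj h
        · exact shorter hij.symm hj hi h
      obtain ⟨T, hT, hT0, hlt⟩ := key
      obtain ⟨a, ha⟩ := sum_nat hw
      obtain ⟨b, hb⟩ := sum_nat (hT.mulVec hw)
      have hbN : ∑ k, Complex.normSq ((T *ᵥ w) k) < N := by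
        rw [ha, hb] at hlt
        rw [ha] at hN
        rw [hb]
        have h3 : b < a := by exact_mod_cast hlt
        have h4 : a < N + 1 := by exact_mod_cast hN
        exact_mod_cast (by omega : b < N)
      obtain ⟨g, c, hg, hc, hc0, hgc⟩ := ih (T *ᵥ w) (hT.mulVec hw) hT0 hbN
      obtain ⟨T', hT', h5, h6⟩ := hT.inv
      refine ⟨T' * g, c, IsGL.mul ⟨hT', T, hT.ent, h6, h5⟩ hg, hc, hc0, ?_⟩
      calc w = T' *ᵥ (T *ᵥ w) := by rw [mulVec_mulVec, h6, one_mulVec]
        _ = _ := by rw [hgc, mulVec_smul, mulVec_mulVec]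
    · push Not at h2
      obtain ⟨k, hk⟩ : ∃ k, w k ≠ 0 := by
        by_contra h
        push Not at h
        exact h0 (funext h)
      obtain ⟨P, hP, hPk⟩ := exists_swap k
      refine ⟨P, w k, hP, hw k, hk, ?_⟩
      rw [hPk]
      ext i
      rw [Pi.smul_apply, Pi.single_apply, smul_eq_mul]
      by_cases hi : i = k
      · rw [if_pos hi, mul_one, hi]
      · rw [if_neg hi, mul_zero]
        exact h2 k i (Ne.symm hi) hk

/-- **Brick UNI.** -/
theorem t_UNI : S_UNI := by
  intro n w hw h0
  obtain ⟨N, hN⟩ := sum_nat hw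
  exact uni_aux (N + 1) w hw h0 (by rw [hN]; exact_mod_cast Nat.lt_succ_self N)

end Pool.Agent.K3h45.KB
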